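import Pool.Agent.R461.MD.Sieve
import Pool.Agent.H353R2.Z2
import Pool.Agent.TH181.MW.Cov
import Pool.Agent.W928.MW.Dim

/-! # Coverings of the set of the bad leading coefficients -/

set_option autoImplicit false

open Finset MeasureTheory

namespace Pool.Agent.R461.MD

open Pool.Agent.R461.MF (dl pc Qc sc)
open Pool.Agent.W928.MW (e prs ev_pow ev_log)
open Pool.Agent.Helper112 (ee lsSep)

theorem sep_of {K : ℕ} (hK : 0 < K) {x : ℝ} (h1 : 1 / (K : ℝ) ≤ |x|) (h2 : |x| ≤ 1 - 1 / (K : ℝ)) :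
    lsSep K x := by
  have hK' : (0 : ℝ) < 1 / (K : ℝ) := by positivity
  unfold Pool.Agent.Helper112.lsSep
  rcases le_or_gt 0 x with hx | hx
  · rw [abs_of_nonneg hx] at h1 h2
    have h3 : Int.fract x = x := Int.fract_eq_self.2 ⟨hx, by linarith⟩
    rw [h3]
    exact ⟨h1, h2⟩
  · rw [abs_of_neg hx] at h1 h2
    have h3 : Int.fract x = x + 1 := by
      have h4 : Int.fract (x + 1) = x + 1 := Int.fract_eq_self.2 ⟨by linarith, by linarith⟩
      rw [← h4, Int.fract_add_one]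
    rw [h3]
    exact ⟨by linarith, by linarith⟩

/-- covering by cells of length `1/K` -/
theorem cells {K : ℕ} (hK2 : 2 ∣ K) (hK0 : 0 < K) (E : Set ℝ) (j : ℤ)
    (hE : E ⊆ Set.Icc (j : ℝ) ((j : ℝ) + 1)) {R : ℝ}
    (hR : ∀ T : Finset ℝ, (∀ t ∈ T, t ∈ E) → (∀ r ∈ T, ∀ s ∈ T, r ≠ s → lsSep K (s - r)) →
      (T.card : ℝ) ≤ R) :
    ∃ S : Finset ℝ, (S.card : ℝ) ≤ 2 * R + 1 ∧ E ⊆ ⋃ x ∈ S, Set.Icc x (x + 1 / (K : ℝ)) := by
  classical
  have hKr : (0 : ℝ) < K := by exact_mod_cast hK0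
  set cell : ℕ → ℝ → Prop := fun m t => (j : ℝ) + m / K ≤ t ∧ t < (j : ℝ) + (m + 1) / K with hcell
  set I : Finset ℕ := (range K).filter (fun m => ∃ t ∈ E, cell m t) with hI
  have hch : ∀ m : ℕ, ∃ t : ℝ, m ∈ I → (t ∈ E ∧ cell m t) := by
    intro m
    by_cases hm : m ∈ I
    · rw [hI, Finset.mem_filter] at hm
      obtain ⟨_, t, ht1, ht2⟩ := hm
      exact ⟨t, fun _ => ⟨ht1, ht2⟩⟩
    · exact ⟨0, fun h => absurd h hm⟩
  choose τ hτ using hch
  have hlt : ∀ m n : ℕ, m ∈ I → n ∈ I → m < n → m % 2 = n % 2 →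
      1 / (K : ℝ) ≤ τ n - τ m ∧ τ n - τ m ≤ 1 - 1 / (K : ℝ) := by
    intro m n hm hn hmn hpar
    have h1 := (hτ m hm).2
    have h2 := (hτ n hn).2
    simp only [hcell] at h1 h2
    have hnK : n < K := by
      rw [hI, Finset.mem_filter, Finset.mem_range] at hn
      exact hn.1
    have h3 : m + 2 ≤ n := by omega
    have h4 : n - m + 2 ≤ K := by
      obtain ⟨q, hq⟩ := hK2
      omega
    have h3r : (m : ℝ) + 2 ≤ n := by exact_mod_cast h3
    have h4r : (n : ℝ) + 2 ≤ K + m := by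
      have : n + 2 ≤ K + m := by omega
      exact_mod_cast this
    have e1 : ((j : ℝ) + n / K) - ((j : ℝ) + (m + 1) / K) = (n - m - 1) / K := by ring
    have e2 : ((j : ℝ) + (n + 1) / K) - ((j : ℝ) + m / K) = (n - m + 1) / K := by ring
    have e3 : (1 : ℝ) - 1 / K = (K - 1) / K := by field_simp
    have h5 : (1 : ℝ) / K ≤ (n - m - 1) / K := div_le_div_of_nonneg_right (by linarith) hKr.le
    have h6 : ((n : ℝ) - m + 1) / K ≤ (K - 1) / K := div_le_div_of_nonneg_right (by linarith) hKr.le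
    constructor
    · linarith [h1.2, h2.1]
    · rw [e3]
      linarith [h1.1, h2.2]
  have hinj : ∀ m ∈ I, ∀ n ∈ I, m % 2 = n % 2 → m ≠ n → lsSep K (τ n - τ m) ∧ τ m ≠ τ n := by
    intro m hm n hn hpar hne
    have hK' : (0 : ℝ) < 1 / (K : ℝ) := by positivity
    rcases lt_or_gt_of_ne hne with h | h
    · obtain ⟨h1, h2⟩ := hlt m n hm hn h hpar
      have h3 : |τ n - τ m| = τ n - τ m := abs_of_nonneg (by linarith)
      refine ⟨sep_of hK0 (by rw [h3]; exact h1) (by rw [h3]; exact h2), fun hh => ?_⟩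
      rw [hh] at h1
      linarith
    · obtain ⟨h1, h2⟩ := hlt n m hn hm h hpar.symm
      have h3 : |τ n - τ m| = τ m - τ n := by
        rw [abs_sub_comm]
        exact abs_of_nonneg (by linarith)
      refine ⟨sep_of hK0 (by rw [h3]; exact h1) (by rw [h3]; exact h2), fun hh => ?_⟩
      rw [hh] at h1
      linarith
  have hpar : ∀ b : ℕ, (((I.filter fun m => m % 2 = b).card : ℕ) : ℝ) ≤ R := by
    intro b
    have h1 : ((I.filter fun m => m % 2 = b).image τ).card = (I.filter fun m => m % 2 = b).card := by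
      refine Finset.card_image_of_injOn ?_
      intro m hm n hn hmn
      rw [Finset.mem_coe, Finset.mem_filter] at hm hn
      by_contra hne
      exact (hinj m hm.1 n hn.1 (hm.2.trans hn.2.symm) hne).2 hmn
    rw [← h1]
    refine hR _ ?_ ?_
    · intro t ht
      rw [Finset.mem_image] at ht
      obtain ⟨m, hm, rfl⟩ := ht
      rw [Finset.mem_filter] at hm
      exact (hτ m hm.1).1
    · intro r hr s hs hrs
      rw [Finset.mem_image] at hr hs
      obtain ⟨m, hm, rfl⟩ := hr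
      obtain ⟨n, hn, rfl⟩ := hs
      rw [Finset.mem_filter] at hm hn
      refine (hinj m hm.1 n hn.1 (hm.2.trans hn.2.symm) ?_).1
      rintro rfl
      exact hrs rfl
  refine ⟨insert ((j : ℝ) + 1) (I.image fun m : ℕ => (j : ℝ) + m / K), ?_, ?_⟩
  · have h1 : (insert ((j : ℝ) + 1) (I.image fun m : ℕ => (j : ℝ) + m / K)).card ≤ I.card + 1 :=
      (Finset.card_insert_le _ _).trans (by
        have := Finset.card_image_le (s := I) (f := fun m : ℕ => (j : ℝ) + m / K)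
        omega)
    have h2 : I.card ≤ (I.filter fun m => m % 2 = 0).card + (I.filter fun m => m % 2 = 1).card := by
      rw [← Finset.card_union_of_disjoint]
      · refine Finset.card_le_card fun m hm => ?_
        rcases Nat.mod_two_eq_zero_or_one m with h | h
        · exact Finset.mem_union.2 (Or.inl (Finset.mem_filter.2 ⟨hm, h⟩))
        · exact Finset.mem_union.2 (Or.inr (Finset.mem_filter.2 ⟨hm, h⟩))
      · rw [Finset.disjoint_left]
        intro m hm hm'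
        rw [Finset.mem_filter] at hm hm'
        omega
    have h3 : (I.card : ℝ) ≤ R + R := by
      have h4 : (I.card : ℝ) ≤ (((I.filter fun m => m % 2 = 0).card : ℕ) : ℝ) +
          (((I.filter fun m => m % 2 = 1).card : ℕ) : ℝ) := by exact_mod_cast h2
      exact h4.trans (add_le_add (hpar 0) (hpar 1))
    have h5 : (((insert ((j : ℝ) + 1) (I.image fun m : ℕ => (j : ℝ) + m / K)).card : ℕ) : ℝ) ≤
        (I.card : ℝ) + 1 := by exact_mod_cast h1
    linarith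
  · intro t ht
    rw [Set.mem_iUnion₂]
    have h1 := hE ht
    rcases lt_or_eq_of_le h1.2 with h2 | h2
    · set m : ℕ := ⌊(t - j) * K⌋₊ with hm
      have h3 : 0 ≤ (t - j) * K := mul_nonneg (by linarith [h1.1]) hKr.le
      have h4 : (m : ℝ) ≤ (t - j) * K := Nat.floor_le h3
      have h5 : (t - j) * K < (m : ℝ) + 1 := Nat.lt_floor_add_one _
      have h6 : (j : ℝ) + m / K ≤ t := by
        have : (m : ℝ) / K ≤ t - j := by
          rw [div_le_iff₀ hKr]
          exact h4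
        linarith
      have h7 : t < (j : ℝ) + (m + 1) / K := by
        have : t - j < ((m : ℝ) + 1) / K := by
          rw [lt_div_iff₀ hKr]
          exact h5
        linarith
      have h8 : m < K := by
        have h9 : (m : ℝ) < K := by
          calc (m : ℝ) ≤ (t - j) * K := h4
            _ < 1 * K := mul_lt_mul_of_pos_right (by linarith) hKr
            _ = K := one_mul _
        exact_mod_cast h9
      refine ⟨(j : ℝ) + m / K, ?_, h6, ?_⟩
      · rw [Finset.mem_insert]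
        refine Or.inr (Finset.mem_image.2 ⟨m, ?_, rfl⟩)
        rw [hI, Finset.mem_filter, Finset.mem_range]
        exact ⟨h8, t, ht, h6, h7⟩
      · have : (j : ℝ) + (m + 1) / K = (j : ℝ) + m / K + 1 / K := by ring
        rw [this] at h7
        exact h7.le
    · refine ⟨(j : ℝ) + 1, Finset.mem_insert_self _ _, h2.ge, ?_⟩
      rw [h2]
      have : (0 : ℝ) < 1 / (K : ℝ) := by positivity
      linarith

/-- bad leading coefficients at the scale `2^i` -/
def Bd (k : ℕ) (c : ℕ → ℂ) (a : ℝ) (j : ℤ) (i : ℕ) : Set ℝ :=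
  {t : ℝ | t ∈ Set.Icc (j : ℝ) ((j : ℝ) + 1) ∧ ∃ (M : ℕ) (ξ : ℝ), M ≤ 2 ^ i ∧
    ((2 : ℝ) ^ i) ^ a < ‖sc k M c t ξ‖}

theorem rep_bound {k : ℕ} (hk : 3 ≤ k) {ε : ℝ} (hε : 0 < ε) : ∃ C : ℝ, 0 < C ∧
    ∀ N : ℕ, 1 ≤ N → ∀ D : ℤ, D ≠ 0 → |D| ≤ 2 * (N : ℤ) ^ k →
      (((US N).filter fun u => dl k u.1 u.2 = D).card : ℝ) ≤ C * (N : ℝ) ^ ε := by
  have hk0 : (0 : ℝ) < k := by
    have : 0 < k := by omega
    exact_mod_cast this
  obtain ⟨C, hC, hCd⟩ := H353.divisor_bound_real (ε / (2 * k)) (by positivity)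
  refine ⟨4 * C ^ 2 * (2 : ℝ) ^ (ε / k), by positivity, fun N hN D hD hDN => ?_⟩
  have hN0 : (0 : ℝ) < N := by exact_mod_cast hN
  have h1 := rep_card hk N hD
  have h2 : (((US N).filter fun u => dl k u.1 u.2 = D).card : ℝ) ≤
      (2 * (D.natAbs.divisors.card : ℝ)) ^ 2 := by exact_mod_cast h1
  have h3 := hCd D.natAbs (Int.natAbs_ne_zero.2 hD)
  have h4 : (D.natAbs : ℝ) ≤ 2 * (N : ℝ) ^ k := by
    have h5 : ((D.natAbs : ℕ) : ℤ) ≤ 2 * (N : ℤ) ^ k := by
      rw [Int.natCast_natAbs]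
      exact hDN
    have h6 : D.natAbs ≤ 2 * N ^ k := by exact_mod_cast h5
    exact_mod_cast h6
  have h5 : ((D.natAbs : ℕ) : ℝ) ^ (ε / (2 * k)) ≤ (2 * (N : ℝ) ^ k) ^ (ε / (2 * k)) :=
    Real.rpow_le_rpow (Nat.cast_nonneg _) h4 (by positivity)
  have h6 : (2 * (D.natAbs.divisors.card : ℝ)) ^ 2 ≤
      (2 * (C * (2 * (N : ℝ) ^ k) ^ (ε / (2 * k)))) ^ 2 := by
    refine pow_le_pow_left₀ (by positivity) ?_ 2
    refine mul_le_mul_of_nonneg_left (h3.trans ?_) (by norm_num)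
    exact mul_le_mul_of_nonneg_left h5 hC.le
  refine h2.trans (h6.trans (le_of_eq ?_))
  have h7 : (2 * (N : ℝ) ^ k) ^ (ε / (2 * k)) * (2 * (N : ℝ) ^ k) ^ (ε / (2 * k)) =
      (2 : ℝ) ^ (ε / k) * (N : ℝ) ^ ε := by
    rw [← Real.rpow_add (by positivity), Real.mul_rpow (by norm_num) (by positivity),
      ← Real.rpow_natCast, ← Real.rpow_mul hN0.le]
    congr 2
    · field_simp
      ring
    · field_simp
      ring
  calc (2 * (C * (2 * (N : ℝ) ^ k) ^ (ε / (2 * k)))) ^ 2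
      = 4 * C ^ 2 * ((2 * (N : ℝ) ^ k) ^ (ε / (2 * k)) * (2 * (N : ℝ) ^ k) ^ (ε / (2 * k))) := by ring
    _ = _ := by
        rw [h7]
        ring

/-- **The covering.** -/
theorem cover {k : ℕ} (hk : 3 ≤ k) {c : ℕ → ℂ} (hc : ∀ n, ‖c n‖ ≤ 1) {η ε : ℝ} (hη : η ≤ 1 / 4)
    (hε : 0 < ε) (hεη : ε < η) (j : ℤ) :
    ∃ i0 : ℕ, ∀ i : ℕ, i0 ≤ i → ∃ S : Finset ℝ,
      (S.card : ℝ) ≤ ((2 : ℝ) ^ i) ^ ((k : ℝ) - 3 + 8 * η - 6 * ε) ∧
      Bd k c (1 - η + ε) j i ⊆ ⋃ x ∈ S, Set.Icc x (x + ((2 : ℝ) ^ i) ^ (-(k : ℝ))) := by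
  have hk3 : (3 : ℝ) ≤ k := by exact_mod_cast hk
  obtain ⟨C, hC, hrep⟩ := rep_bound hk hε
  set A : ℝ := (k : ℝ) - 3 + 8 * η - 6 * ε with hA
  have hA0 : 0 < A := by rw [hA]; linarith
  obtain ⟨i1, h1⟩ := ev_log (ε / 16) (by positivity) 1
  obtain ⟨i2, h2⟩ := ev_pow (ε / 2) (by positivity) (4 * (216 * 6 * C))
  obtain ⟨i3, h3⟩ := ev_pow A hA0 2
  obtain ⟨i4, h4⟩ := ev_pow (2 * ε) (by positivity) 12
  refine ⟨i1 + i2 + i3 + i4 + 1, fun i hi => ?_⟩
  have g1 := h1 i (by omega)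
  have g2 := h2 i (by omega)
  have g3 := h3 i (by omega)
  have g4 := h4 i (by omega)
  set X : ℝ := (2 : ℝ) ^ i with hX
  have hX1 : (1 : ℝ) ≤ X := one_le_pow₀ (by norm_num)
  have hX0 : (0 : ℝ) < X := by positivity
  have hNX : (((2 ^ i : ℕ) : ℕ) : ℝ) = X := by push_cast; rfl
  have hlog : 0 ≤ Real.log X := Real.log_nonneg hX1
  have hL : 2 + Real.log X ≤ X ^ (ε / 16) := by linarith
  have hL8 : (2 + Real.log X) ^ 8 ≤ X ^ (ε / 2) := by
    calc (2 + Real.log X) ^ 8 ≤ (X ^ (ε / 16)) ^ 8 := pow_le_pow_left₀ (by linarith) hL 8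
      _ = X ^ (ε / 2) := by
          rw [← Real.rpow_natCast, ← Real.rpow_mul hX0.le]
          congr 1
          push_cast
          ring
  have hL4 : (2 + Real.log X) ^ 4 ≤ X ^ (2 * ε) := by
    calc (2 + Real.log X) ^ 4 ≤ (X ^ (ε / 16)) ^ 4 := pow_le_pow_left₀ (by linarith) hL 4
      _ = X ^ (ε / 4) := by
          rw [← Real.rpow_natCast, ← Real.rpow_mul hX0.le]
          congr 1
          push_cast
          ring
      _ ≤ X ^ (2 * ε) := Real.rpow_le_rpow_of_exponent_le hX1 (by linarith)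
  set V : ℝ := X ^ (1 - η + ε) with hV
  have hV0 : 0 < V := by positivity
  have hK0 : 0 < 2 ^ (i * k) := by positivity
  have hKX : (((2 ^ (i * k) : ℕ) : ℕ) : ℝ) = X ^ k := by
    rw [hX]
    push_cast
    rw [pow_mul]
  have hK2 : 2 ∣ 2 ^ (i * k) := by
    refine dvd_pow_self 2 ?_
    have : 0 < i * k := Nat.mul_pos (by omega) (by omega)
    omega
  have hV4 : V ^ 4 = X ^ (4 * (1 - η + ε)) := by
    rw [hV, ← Real.rpow_natCast, ← Real.rpow_mul hX0.le]
    congr 1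
    push_cast
    ring
  have hV8 : V ^ 8 = X ^ (8 * (1 - η + ε)) := by
    rw [hV, ← Real.rpow_natCast, ← Real.rpow_mul hX0.le]
    congr 1
    push_cast
    ring
  have hbig : 12 * (2 + Real.log ((2 ^ i : ℕ) : ℝ)) ^ 4 * (((2 ^ i : ℕ) : ℕ) : ℝ) ^ 3 ≤ V ^ 4 := by
    rw [hNX, hV4]
    calc 12 * (2 + Real.log X) ^ 4 * X ^ 3 ≤ X ^ (2 * ε) * X ^ (2 * ε) * X ^ 3 := by
          refine mul_le_mul_of_nonneg_right ?_ (by positivity)
          exact mul_le_mul g4 hL4 (by positivity) (by positivity)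
      _ = X ^ (3 + 4 * ε) := by
          rw [← Real.rpow_natCast X 3, ← Real.rpow_add hX0, ← Real.rpow_add hX0]
          congr 1
          push_cast
          ring
      _ ≤ _ := Real.rpow_le_rpow_of_exponent_le hX1 (by linarith)
  have hR : ∀ T : Finset ℝ, (∀ t ∈ T, t ∈ Bd k c (1 - η + ε) j i) →
      (∀ r ∈ T, ∀ s ∈ T, r ≠ s → lsSep (2 ^ (i * k)) (s - r)) →
      (T.card : ℝ) ≤ X ^ A / 4 := by
    intro T hTE hsep
    have h5 := large (k := k) (N := 2 ^ i) (by omega) Nat.one_le_two_pow hc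
      (B := C * (((2 ^ i : ℕ) : ℕ) : ℝ) ^ ε) (fun D hD hDN => hrep (2 ^ i) Nat.one_le_two_pow D hD hDN)
      (by positivity) T (K := 2 ^ (i * k)) hK0 hsep hV0
      (fun t ht => by
        obtain ⟨_, M, ξ, hM, hlt⟩ := hTE t ht
        exact ⟨M, ξ, hM, hlt.le⟩) hbig
    rw [hNX, hKX, hV8] at h5
    have h6 : (4 * X ^ k + 1) + X ^ k ≤ 6 * X ^ k := by
      have : (1 : ℝ) ≤ X ^ k := one_le_pow₀ hX1
      linarith
    have h7 : (T.card : ℝ) * X ^ (8 * (1 - η + ε)) ≤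
        X ^ A / 4 * X ^ (8 * (1 - η + ε)) := by
      calc (T.card : ℝ) * X ^ (8 * (1 - η + ε))
          ≤ 216 * (2 + Real.log X) ^ 8 * X ^ 5 * ((4 * X ^ k + 1) + X ^ k) * (C * X ^ ε) := h5
        _ ≤ 216 * X ^ (ε / 2) * X ^ 5 * (6 * X ^ k) * (C * X ^ ε) := by
            gcongr
        _ = (216 * 6 * C) * (X ^ (ε / 2) * X ^ 5 * X ^ k * X ^ ε) := by ring
        _ ≤ (X ^ (ε / 2) / 4) * (X ^ (ε / 2) * X ^ 5 * X ^ k * X ^ ε) := by
            refine mul_le_mul_of_nonneg_right ?_ (by positivity)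
            linarith
        _ = X ^ A / 4 * X ^ (8 * (1 - η + ε)) := by
            have e1 : X ^ (ε / 2) * (X ^ (ε / 2) * X ^ 5 * X ^ k * X ^ ε) =
                X ^ A * X ^ (8 * (1 - η + ε)) := by
              rw [← Real.rpow_natCast X 5, ← Real.rpow_natCast X k, ← Real.rpow_add hX0,
                ← Real.rpow_add hX0, ← Real.rpow_add hX0, ← Real.rpow_add hX0,
                ← Real.rpow_add hX0]
              congr 1
              rw [hA]
              push_cast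
              ring
            calc (X ^ (ε / 2) / 4) * (X ^ (ε / 2) * X ^ 5 * X ^ k * X ^ ε)
                = (X ^ (ε / 2) * (X ^ (ε / 2) * X ^ 5 * X ^ k * X ^ ε)) / 4 := by ring
              _ = _ := by
                  rw [e1]
                  ring
    exact le_of_mul_le_mul_right h7 (by positivity)
  obtain ⟨S, hS1, hS2⟩ := cells hK2 hK0 (Bd k c (1 - η + ε) j i) j (fun t ht => ht.1) hR
  refine ⟨S, ?_, ?_⟩
  · refine hS1.trans ?_
    linarith
  · have e1 : X ^ (-(k : ℝ)) = 1 / (((2 ^ (i * k) : ℕ) : ℕ) : ℝ) := by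
      rw [hKX, Real.rpow_neg hX0.le, Real.rpow_natCast, one_div]
    rw [e1]
    exact hS2

end Pool.Agent.R461.MD
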