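import Pool.Agent.R461.MF.Int

/-! # The number of representations `x₁^k + x₂^k - y₁^k - y₂^k = D` with `x₁ + x₂ = y₁ + y₂` -/

set_option autoImplicit false

open Finset

namespace Pool.Agent.R461.MD

open Pool.Agent.R461.MF (dl)

/-- the second difference -/
def hx (k : ℕ) (u a b : ℤ) : ℤ := (u + a + b) ^ k - (u + a) ^ k - (u + b) ^ k + u ^ k

theorem hx_succ (k : ℕ) (u a b : ℤ) : hx (k + 1) u a b =
    (u + a + b) * hx k u a b + b * ((u + a) ^ k - u ^ k) + a * ((u + b) ^ k - u ^ k) := by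
  unfold hx
  ring

theorem diff_succ (k : ℕ) (u a : ℤ) :
    (u + a) ^ (k + 1) - u ^ (k + 1) = (u + a) * ((u + a) ^ k - u ^ k) + a * u ^ k := by
  ring

theorem diff_nonneg (k : ℕ) {u a : ℤ} (hu : 0 ≤ u) (ha : 0 ≤ a) : 0 ≤ (u + a) ^ k - u ^ k :=
  sub_nonneg.2 (pow_le_pow_left₀ hu (by linarith) k)

theorem diff_mono (k : ℕ) {u v a : ℤ} (hu : 0 ≤ u) (huv : u ≤ v) (ha : 0 ≤ a) :
    (u + a) ^ k - u ^ k ≤ (v + a) ^ k - v ^ k := by
  induction k with
  | zero => simp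
  | succ k ih =>
    rw [diff_succ, diff_succ]
    refine add_le_add ?_ ?_
    · exact mul_le_mul (by linarith) ih (diff_nonneg k hu ha) (by linarith)
    · exact mul_le_mul_of_nonneg_left (pow_le_pow_left₀ hu huv k) ha

theorem hx_nonneg (k : ℕ) {u a b : ℤ} (hu : 0 ≤ u) (ha : 0 ≤ a) (hb : 0 ≤ b) : 0 ≤ hx k u a b := by
  induction k with
  | zero =>
    unfold hx
    simp
  | succ k ih =>
    rw [hx_succ]
    have h1 := diff_nonneg k hu ha
    have h2 := diff_nonneg k hu hb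
    have h3 : 0 ≤ u + a + b := by linarith
    positivity

theorem hx_mono (k : ℕ) {u v a b : ℤ} (hu : 0 ≤ u) (huv : u ≤ v) (ha : 0 ≤ a) (hb : 0 ≤ b) :
    hx k u a b ≤ hx k v a b := by
  induction k with
  | zero =>
    unfold hx
    simp
  | succ k ih =>
    rw [hx_succ, hx_succ]
    refine add_le_add (add_le_add ?_ ?_) ?_
    · exact mul_le_mul (by linarith) ih (hx_nonneg k hu ha hb) (by linarith)
    · exact mul_le_mul_of_nonneg_left (diff_mono k hu huv ha) hb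
    · exact mul_le_mul_of_nonneg_left (diff_mono k hu huv hb) ha

theorem hx_pos {k : ℕ} (hk : 2 ≤ k) {u a b : ℤ} (hu : 0 ≤ u) (ha : 0 < a) (hb : 0 < b) :
    0 < hx k u a b := by
  induction k, hk using Nat.le_induction with
  | base =>
    have : hx 2 u a b = 2 * (a * b) := by
      unfold hx
      ring
    rw [this]
    positivity
  | succ k _ ih =>
    rw [hx_succ]
    have h1 := diff_nonneg k hu ha.le
    have h2 := diff_nonneg k hu hb.le
    have h3 : 0 < u + a + b := by linarith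
    positivity

theorem hx_strict {k : ℕ} (hk : 3 ≤ k) {u v a b : ℤ} (hu : 0 ≤ u) (huv : u < v) (ha : 0 < a)
    (hb : 0 < b) : hx k u a b < hx k v a b := by
  obtain ⟨l, rfl⟩ : ∃ l, k = l + 1 := ⟨k - 1, by omega⟩
  rw [hx_succ, hx_succ]
  have h0 : 0 < hx l u a b := hx_pos (by omega) hu ha hb
  refine add_lt_add_of_lt_of_le (add_lt_add_of_lt_of_le ?_ ?_) ?_
  · exact mul_lt_mul (by linarith) (hx_mono l hu huv.le ha.le hb.le) h0 (by linarith)
  · exact mul_le_mul_of_nonneg_left (diff_mono l hu huv.le ha.le) hb.le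
  · exact mul_le_mul_of_nonneg_left (diff_mono l hu huv.le hb.le) ha.le

/-- the solutions of `x₁ + x₂ = y₁ + y₂` -/
def US (N : ℕ) : Finset ((ℕ × ℕ) × (ℕ × ℕ)) :=
  (((Icc 1 N) ×ˢ (Icc 1 N)) ×ˢ ((Icc 1 N) ×ˢ (Icc 1 N))).filter
    fun u => u.1.1 + u.1.2 = u.2.1 + u.2.2

theorem mem_US {N : ℕ} {u : (ℕ × ℕ) × (ℕ × ℕ)} : u ∈ US N ↔
    (((1 ≤ u.1.1 ∧ u.1.1 ≤ N) ∧ (1 ≤ u.1.2 ∧ u.1.2 ≤ N)) ∧
      ((1 ≤ u.2.1 ∧ u.2.1 ≤ N) ∧ (1 ≤ u.2.2 ∧ u.2.2 ≤ N))) ∧ u.1.1 + u.1.2 = u.2.1 + u.2.2 := by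
  unfold US
  simp only [Finset.mem_filter, Finset.mem_product, Finset.mem_Icc]

theorem US_card (N : ℕ) : (US N).card ≤ N ^ 3 := by
  have h1 : (US N).card ≤ ((Icc 1 N) ×ˢ ((Icc 1 N) ×ˢ (Icc 1 N))).card := by
    refine Finset.card_le_card_of_injOn (fun u => (u.1.1, u.2)) (fun u hu => ?_) ?_
    · rw [Finset.mem_coe, mem_US] at hu
      rw [Finset.mem_coe, Finset.mem_product, Finset.mem_product]
      simp only [Finset.mem_Icc]
      exact ⟨hu.1.1.1, hu.1.2.1, hu.1.2.2⟩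
    · rintro ⟨⟨x, x'⟩, ⟨y, y'⟩⟩ hu ⟨⟨z, z'⟩, ⟨w, w'⟩⟩ hv h
      rw [Finset.mem_coe, mem_US] at hu hv
      simp only [Prod.mk.injEq] at h hu hv ⊢
      omega
  refine h1.trans (le_of_eq ?_)
  rw [Finset.card_product, Finset.card_product, Nat.card_Icc, Nat.add_sub_cancel]
  ring

/-- the function of the first variable -/
def FF (k : ℕ) (a b x : ℤ) : ℤ := x ^ k + (x - a - b) ^ k - (x - a) ^ k - (x - b) ^ k

theorem FF_ne {k : ℕ} (hk : 3 ≤ k) {a b x x' : ℤ} (ha : a ≠ 0) (hb : b ≠ 0) (hxx : x < x')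
    (h0 : 0 ≤ x) (h1 : 0 ≤ x - a) (h2 : 0 ≤ x - b) (h3 : 0 ≤ x - a - b) : FF k a b x ≠ FF k a b x' := by
  rcases lt_or_gt_of_ne ha with ha | ha
  · rcases lt_or_gt_of_ne hb with hb | hb
    · have h4 := hx_strict hk (u := x) (v := x') (a := -a) (b := -b) h0 hxx (by linarith)
        (by linarith)
      have e : ∀ y : ℤ, FF k a b y = hx k y (-a) (-b) := by
        intro y
        unfold FF hx
        rw [show y + -a + -b = y - a - b by ring, show y + -a = y - a by ring,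
          show y + -b = y - b by ring]
        ring
      rw [e, e]
      exact h4.ne
    · have h4 := hx_strict hk (u := x - b) (v := x' - b) (a := -a) (b := b) h2 (by linarith)
        (by linarith) hb
      have e : ∀ y : ℤ, FF k a b y = -hx k (y - b) (-a) b := by
        intro y
        unfold FF hx
        rw [show y - b + -a + b = y - a by ring, show y - b + -a = y - a - b by ring,
          show y - b + b = y by ring]
        ring
      rw [e, e]
      intro h5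
      linarith
  · rcases lt_or_gt_of_ne hb with hb | hb
    · have h4 := hx_strict hk (u := x - a) (v := x' - a) (a := a) (b := -b) h1 (by linarith)
        ha (by linarith)
      have e : ∀ y : ℤ, FF k a b y = -hx k (y - a) a (-b) := by
        intro y
        unfold FF hx
        rw [show y - a + a + -b = y - b by ring, show y - a + a = y by ring,
          show y - a + -b = y - a - b by ring]
        ring
      rw [e, e]
      intro h5
      linarith
    · have h4 := hx_strict hk (u := x - a - b) (v := x' - a - b) (a := a) (b := b) h3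
        (by linarith) ha hb
      have e : ∀ y : ℤ, FF k a b y = hx k (y - a - b) a b := by
        intro y
        unfold FF hx
        rw [show y - a - b + a + b = y by ring, show y - a - b + a = y - b by ring,
          show y - a - b + b = y - a by ring]
        ring
      rw [e, e]
      exact h4.ne

theorem dl_FF (k : ℕ) {N : ℕ} {u : (ℕ × ℕ) × (ℕ × ℕ)} (hu : u ∈ US N) :
    dl k u.1 u.2 = FF k ((u.1.1 : ℤ) - u.2.1) ((u.1.1 : ℤ) - u.2.2) u.1.1 := by
  have h1 := (mem_US.1 hu).2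
  have h2 : (u.1.2 : ℤ) = (u.1.1 : ℤ) - ((u.1.1 : ℤ) - u.2.1) - ((u.1.1 : ℤ) - u.2.2) := by
    have : (u.1.1 : ℤ) + u.1.2 = u.2.1 + u.2.2 := by exact_mod_cast h1
    linarith
  unfold dl FF
  rw [← h2]
  rw [show (u.1.1 : ℤ) - ((u.1.1 : ℤ) - u.2.1) = u.2.1 by ring,
    show (u.1.1 : ℤ) - ((u.1.1 : ℤ) - u.2.2) = u.2.2 by ring]
  ring

theorem dvd_one (k : ℕ) {N : ℕ} {u : (ℕ × ℕ) × (ℕ × ℕ)} (hu : u ∈ US N) :
    ((u.1.1 : ℤ) - u.2.1) ∣ dl k u.1 u.2 := by
  have h1 := (mem_US.1 hu).2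
  have h2 : (u.1.1 : ℤ) - u.2.1 = (u.2.2 : ℤ) - u.1.2 := by
    have : (u.1.1 : ℤ) + u.1.2 = u.2.1 + u.2.2 := by exact_mod_cast h1
    linarith
  have h3 : dl k u.1 u.2 = ((u.1.1 : ℤ) ^ k - (u.2.1 : ℤ) ^ k) -
      ((u.2.2 : ℤ) ^ k - (u.1.2 : ℤ) ^ k) := by
    unfold dl
    ring
  rw [h3]
  refine dvd_sub (sub_dvd_pow_sub_pow _ _ k) ?_
  rw [h2]
  exact sub_dvd_pow_sub_pow _ _ k

theorem dvd_two (k : ℕ) {N : ℕ} {u : (ℕ × ℕ) × (ℕ × ℕ)} (hu : u ∈ US N) :
    ((u.1.1 : ℤ) - u.2.2) ∣ dl k u.1 u.2 := by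
  have h1 := (mem_US.1 hu).2
  have h2 : (u.1.1 : ℤ) - u.2.2 = (u.2.1 : ℤ) - u.1.2 := by
    have : (u.1.1 : ℤ) + u.1.2 = u.2.1 + u.2.2 := by exact_mod_cast h1
    linarith
  have h3 : dl k u.1 u.2 = ((u.1.1 : ℤ) ^ k - (u.2.2 : ℤ) ^ k) -
      ((u.2.1 : ℤ) ^ k - (u.1.2 : ℤ) ^ k) := by
    unfold dl
    ring
  rw [h3]
  refine dvd_sub (sub_dvd_pow_sub_pow _ _ k) ?_
  rw [h2]
  exact sub_dvd_pow_sub_pow _ _ k

/-- the divisors with signs -/
def sdiv (D : ℤ) : Finset ℤ :=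
  (D.natAbs.divisors.image fun d : ℕ => (d : ℤ)) ∪ (D.natAbs.divisors.image fun d : ℕ => -(d : ℤ))

theorem mem_sdiv {D a : ℤ} (hD : D ≠ 0) (h : a ∣ D) : a ∈ sdiv D := by
  have h1 : a.natAbs ∈ D.natAbs.divisors :=
    Nat.mem_divisors.2 ⟨Int.natAbs_dvd_natAbs.2 h, Int.natAbs_ne_zero.2 hD⟩
  unfold sdiv
  rw [Finset.mem_union, Finset.mem_image, Finset.mem_image]
  rcases Int.natAbs_eq a with h2 | h2
  · exact Or.inl ⟨_, h1, h2.symm⟩
  · exact Or.inr ⟨_, h1, h2.symm⟩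

theorem sdiv_card (D : ℤ) : (sdiv D).card ≤ 2 * D.natAbs.divisors.card := by
  unfold sdiv
  refine (Finset.card_union_le _ _).trans ?_
  have h1 := Finset.card_image_le (s := D.natAbs.divisors) (f := fun d : ℕ => (d : ℤ))
  have h2 := Finset.card_image_le (s := D.natAbs.divisors) (f := fun d : ℕ => -(d : ℤ))
  omega

/-- **The number of representations of `D ≠ 0`.** -/
theorem rep_card {k : ℕ} (hk : 3 ≤ k) (N : ℕ) {D : ℤ} (hD : D ≠ 0) :
    ((US N).filter fun u => dl k u.1 u.2 = D).card ≤ (2 * D.natAbs.divisors.card) ^ 2 := by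
  have h1 : ((US N).filter fun u => dl k u.1 u.2 = D).card ≤ (sdiv D ×ˢ sdiv D).card := by
    refine Finset.card_le_card_of_injOn
      (fun u => (((u.1.1 : ℤ) - u.2.1), ((u.1.1 : ℤ) - u.2.2))) (fun u hu => ?_) ?_
    · rw [Finset.mem_coe, Finset.mem_filter] at hu
      rw [Finset.mem_coe, Finset.mem_product]
      refine ⟨mem_sdiv hD ?_, mem_sdiv hD ?_⟩
      · rw [← hu.2]
        exact dvd_one k hu.1
      · rw [← hu.2]
        exact dvd_two k hu.1
    · intro u hu v hv h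
      rw [Finset.mem_coe, Finset.mem_filter] at hu hv
      simp only [Prod.mk.injEq] at h
      obtain ⟨hu1, hu2⟩ := hu
      obtain ⟨hv1, hv2⟩ := hv
      have eu := dl_FF k hu1
      have ev := dl_FF k hv1
      rw [hu2] at eu
      rw [hv2, ← h.1, ← h.2] at ev
      have mu := mem_US.1 hu1
      have mv := mem_US.1 hv1
      have ha : ((u.1.1 : ℤ) - u.2.1) ≠ 0 := by
        intro h0
        have h3 := dvd_one k hu1
        rw [h0, hu2] at h3
        exact hD (zero_dvd_iff.1 h3)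
      have hb : ((u.1.1 : ℤ) - u.2.2) ≠ 0 := by
        intro h0
        have h3 := dvd_two k hu1
        rw [h0, hu2] at h3
        exact hD (zero_dvd_iff.1 h3)
      have hx1 : (u.1.1 : ℤ) = v.1.1 := by
        rcases lt_trichotomy (u.1.1 : ℤ) v.1.1 with h4 | h4 | h4
        · exfalso
          refine FF_ne hk ha hb h4 (by omega) (by omega) (by omega) (by omega) ?_
          rw [← eu, ← ev]
        · exact h4
        · exfalso
          refine FF_ne hk ha hb h4 (by omega) (by omega) (by omega) (by omega) ?_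
          rw [← eu, ← ev]
      have hx2 := h.1
      have hx3 := h.2
      have m1 := mu.2
      have m2 := mv.2
      refine Prod.ext (Prod.ext ?_ ?_) (Prod.ext ?_ ?_) <;> omega
  refine h1.trans ?_
  rw [Finset.card_product, sq]
  exact Nat.mul_le_mul (sdiv_card D) (sdiv_card D)

/-- the number of representations of `0` -/
theorem rep_zero {k : ℕ} (hk : 2 ≤ k) (N : ℕ) :
    ((US N).filter fun u => dl k u.1 u.2 = 0).card ≤ 2 * N ^ 2 := by
  have hsub : ((US N).filter fun u => dl k u.1 u.2 = 0) ⊆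
      (((Icc 1 N) ×ˢ (Icc 1 N)).image fun w : ℕ × ℕ => (w, w)) ∪
      (((Icc 1 N) ×ˢ (Icc 1 N)).image fun w : ℕ × ℕ => ((w.2, w.1), w)) := by
    intro u hu
    rw [Finset.mem_filter] at hu
    have mu := mem_US.1 hu.1
    have hdio := Pool.Agent.W225.MWD.t k u.1.1 u.1.2 u.2.1 u.2.2 hk mu.2
    have h0 : ((dl k u.1 u.2 : ℤ) : ℝ) = (u.1.1 : ℝ) ^ k + (u.1.2 : ℝ) ^ k - (u.2.1 : ℝ) ^ k -
        (u.2.2 : ℝ) ^ k := by
      unfold dl
      push_cast
      ring
    rw [← h0, hu.2, Int.cast_zero, abs_zero] at hdio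
    have hx1 : (1 : ℝ) ≤ u.1.1 := by exact_mod_cast mu.1.1.1.1
    have hmax : (0 : ℝ) < (max (max (u.1.1 : ℝ) (u.1.2 : ℝ)) (max (u.2.1 : ℝ) (u.2.2 : ℝ))) ^ (k - 2) := by
      refine pow_pos ?_ _
      have : (u.1.1 : ℝ) ≤ max (max (u.1.1 : ℝ) (u.1.2 : ℝ)) (max (u.2.1 : ℝ) (u.2.2 : ℝ)) :=
        (le_max_left _ _).trans (le_max_left _ _)
      linarith
    have h3 : |(u.1.1 : ℝ) - u.2.1| * |(u.1.1 : ℝ) - u.2.2| = 0 := by
      have h4 : 0 ≤ |(u.1.1 : ℝ) - u.2.1| * |(u.1.1 : ℝ) - u.2.2| := by positivity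
      refine le_antisymm ?_ h4
      by_contra hcon
      push Not at hcon
      have := mul_pos hcon hmax
      linarith
    rw [Finset.mem_union, Finset.mem_image, Finset.mem_image]
    rcases mul_eq_zero.1 h3 with h4 | h4
    · left
      have h5 : u.1.1 = u.2.1 := by
        have := sub_eq_zero.1 (abs_eq_zero.1 h4)
        exact_mod_cast this
      refine ⟨u.2, ?_, ?_⟩
      · rw [Finset.mem_product, Finset.mem_Icc, Finset.mem_Icc]
        exact mu.1.2
      · have h6 := mu.2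
        refine Prod.ext (Prod.ext ?_ ?_) rfl <;> simp only <;> omega
    · right
      have h5 : u.1.1 = u.2.2 := by
        have := sub_eq_zero.1 (abs_eq_zero.1 h4)
        exact_mod_cast this
      refine ⟨u.2, ?_, ?_⟩
      · rw [Finset.mem_product, Finset.mem_Icc, Finset.mem_Icc]
        exact mu.1.2
      · have h6 := mu.2
        refine Prod.ext (Prod.ext ?_ ?_) rfl <;> simp only <;> omega
  refine (Finset.card_le_card hsub).trans ((Finset.card_union_le _ _).trans ?_)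
  have h1 := Finset.card_image_le (s := (Icc 1 N) ×ˢ (Icc 1 N)) (f := fun w : ℕ × ℕ => (w, w))
  have h2 := Finset.card_image_le (s := (Icc 1 N) ×ˢ (Icc 1 N))
    (f := fun w : ℕ × ℕ => ((w.2, w.1), w))
  have h3 : ((Icc 1 N) ×ˢ (Icc 1 N)).card = N ^ 2 := by
    rw [Finset.card_product, Nat.card_Icc, Nat.add_sub_cancel]
    ring
  rw [h3] at h1 h2
  omega

end Pool.Agent.R461.MD
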