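import Pool.Agent.R461.MD.Cover

/-! # The Hausdorff dimension of the exceptional set of leading coefficients -/

set_option autoImplicit false

open Finset MeasureTheory

namespace Pool.Agent.R461.MD

open Pool.Agent.R461.MF (sc)
open Pool.Agent.W928.MW (e)

/-- the bound holds at `t` with the exponent `a` -/
def Ok (k : ℕ) (c : ℕ → ℂ) (a t : ℝ) : Prop :=
  ∃ C : ℝ, ∀ N : ℕ, 1 ≤ N → ∀ ξ : ℝ, ‖sc k N c t ξ‖ ≤ C * (N : ℝ) ^ a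

theorem ok_of {k : ℕ} {c : ℕ → ℂ} {a t : ℝ} (ha0 : 0 ≤ a) (J₀ : ℕ)
    (h : ∀ J : ℕ, J₀ ≤ J → ∀ (M : ℕ) (ξ : ℝ), M ≤ 2 ^ J → ‖sc k M c t ξ‖ ≤ ((2 : ℝ) ^ J) ^ a) :
    Ok k c a t := by
  refine ⟨(2 * (2 : ℝ) ^ J₀) ^ a, fun N hN ξ => ?_⟩
  have hN0 : (0 : ℝ) < N := by exact_mod_cast hN
  set J : ℕ := Nat.log 2 N + 1 + J₀ with hJ
  have h1 : N ≤ 2 ^ J := by
    have h2 := Nat.lt_pow_succ_log_self (b := 2) (by norm_num) N
    calc N ≤ 2 ^ (Nat.log 2 N + 1) := h2.le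
      _ ≤ 2 ^ J := Nat.pow_le_pow_right (by norm_num) (by omega)
  have h2 : ((2 : ℝ) ^ J) ≤ (2 * (2 : ℝ) ^ J₀) * N := by
    have h3 := Nat.pow_log_le_self 2 (show N ≠ 0 by omega)
    have h4 : ((2 : ℝ) ^ Nat.log 2 N) ≤ N := by exact_mod_cast h3
    have h5 : ((2 : ℝ) ^ J) = (2 * (2 : ℝ) ^ J₀) * (2 : ℝ) ^ Nat.log 2 N := by
      rw [hJ, pow_add, pow_add]
      ring
    rw [h5]
    exact mul_le_mul_of_nonneg_left h4 (by positivity)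
  refine (h J (by omega) N ξ h1).trans ?_
  rw [← Real.mul_rpow (by positivity) hN0.le]
  exact Real.rpow_le_rpow (by positivity) h2 ha0

theorem Ok.mono {k : ℕ} {c : ℕ → ℂ} {a b t : ℝ} (hab : a ≤ b) (h : Ok k c a t) : Ok k c b t := by
  obtain ⟨C, hC⟩ := h
  refine ⟨max C 0, fun N hN ξ => (hC N hN ξ).trans ?_⟩
  have hN1 : (1 : ℝ) ≤ N := by exact_mod_cast hN
  calc C * (N : ℝ) ^ a ≤ max C 0 * (N : ℝ) ^ a :=
        mul_le_mul_of_nonneg_right (le_max_left _ _) (by positivity)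
    _ ≤ _ := mul_le_mul_of_nonneg_left
        (Real.rpow_le_rpow_of_exponent_le hN1 hab) (le_max_right _ _)

theorem sc_le (k N : ℕ) {c : ℕ → ℂ} (hc : ∀ n, ‖c n‖ ≤ 1) (t ξ : ℝ) : ‖sc k N c t ξ‖ ≤ N := by
  unfold Pool.Agent.R461.MF.sc
  refine (norm_sum_le _ _).trans ?_
  calc ∑ n ∈ Icc 1 N, ‖c n * e (t * (n : ℝ) ^ k + ξ * (n : ℝ))‖ ≤ ∑ n ∈ Icc 1 N, (1 : ℝ) := by
        refine Finset.sum_le_sum fun n _ => ?_
        rw [norm_mul, Pool.Agent.W928.MW.e_norm, mul_one]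
        exact hc n
    _ = N := by simp

theorem ok_triv {k : ℕ} {c : ℕ → ℂ} (hc : ∀ n, ‖c n‖ ≤ 1) {a : ℝ} (ha : 1 ≤ a) (t : ℝ) :
    Ok k c a t := by
  refine ⟨1, fun N hN ξ => (sc_le k N hc t ξ).trans ?_⟩
  have hN1 : (1 : ℝ) ≤ N := by exact_mod_cast hN
  rw [one_mul]
  calc (N : ℝ) = (N : ℝ) ^ (1 : ℝ) := (Real.rpow_one _).symm
    _ ≤ _ := Real.rpow_le_rpow_of_exponent_le hN1 ha

/-- **The dimension, one exponent.** -/
theorem dim_one {k : ℕ} (hk : 3 ≤ k) {c : ℕ → ℂ} (hc : ∀ n, ‖c n‖ ≤ 1) {η ε : ℝ} (hη : η ≤ 1 / 4)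
    (hε : 0 < ε) (hεη : ε < η) :
    dimH {t : ℝ | ¬ Ok k c (1 - η + ε) t} ≤
      ENNReal.ofReal (1 - (3 - 8 * η + 5 * ε) / k) := by
  have hk3 : (3 : ℝ) ≤ k := by exact_mod_cast hk
  have hk0 : (0 : ℝ) < k := by linarith
  set D : ℝ := 1 - (3 - 8 * η + 5 * ε) / k with hD
  have hkD : (k : ℝ) * D = k - 3 + 8 * η - 5 * ε := by
    rw [hD]
    field_simp
    ring
  have hD0 : 0 < D := by
    have h1 : 0 < (k : ℝ) * D := by
      rw [hkD]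
      linarith
    exact (mul_pos_iff_of_pos_left hk0).1 h1
  have hsub : {t : ℝ | ¬ Ok k c (1 - η + ε) t} ⊆
      ⋃ j : ℤ, {t : ℝ | ∀ i1 : ℕ, ∃ i : ℕ, i1 ≤ i ∧ t ∈ Bd k c (1 - η + ε) j i} := by
    intro t ht
    rw [Set.mem_iUnion]
    refine ⟨⌊t⌋, ?_⟩
    by_contra hcon
    rw [Set.mem_setOf_eq] at hcon
    push Not at hcon
    obtain ⟨i1, h1⟩ := hcon
    refine ht (ok_of (by linarith) i1 fun J hJ M ξ hM => ?_)
    by_contra hlt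
    push Not at hlt
    exact h1 J hJ ⟨⟨Int.floor_le t, (Int.lt_floor_add_one t).le⟩, M, ξ, hM, hlt⟩
  refine (dimH_mono hsub).trans ?_
  rw [dimH_iUnion]
  refine iSup_le fun j => ?_
  refine Pool.Agent.TH181.MW.S_DIMG_t ((k : ℝ) - 3 + 8 * η - 6 * ε) k D (Bd k c (1 - η + ε) j)
    hk0 hD0 (by rw [hkD]; linarith) (cover hk hc hη hε hεη j)

/-- **The dimension, all exponents.** -/
theorem dim_all {k : ℕ} (hk : 3 ≤ k) {c : ℕ → ℂ} (hc : ∀ n, ‖c n‖ ≤ 1) {η : ℝ} (hη0 : 0 < η)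
    (hη : η ≤ 1 / 4) :
    dimH {t : ℝ | ¬ ∀ ε : ℝ, 0 < ε → Ok k c (1 - η + ε) t} ≤
      ENNReal.ofReal (1 - (3 - 8 * η) / k) := by
  have hk3 : (3 : ℝ) ≤ k := by exact_mod_cast hk
  have hk0 : (0 : ℝ) < k := by linarith
  have hsub : {t : ℝ | ¬ ∀ ε : ℝ, 0 < ε → Ok k c (1 - η + ε) t} ⊆
      ⋃ n : ℕ, {t : ℝ | ¬ Ok k c (1 - η + η / (n + 2)) t} := by
    intro t ht
    rw [Set.mem_setOf_eq] at ht
    push Not at ht
    obtain ⟨ε, hε, h1⟩ := ht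
    rw [Set.mem_iUnion]
    obtain ⟨n, hn⟩ := exists_nat_gt (η / ε)
    refine ⟨n, fun h2 => h1 (h2.mono ?_)⟩
    have h3 : η / (n + 2) ≤ ε := by
      rw [div_le_iff₀ (by positivity)]
      rw [div_lt_iff₀ hε] at hn
      nlinarith
    linarith
  refine (dimH_mono hsub).trans ?_
  rw [dimH_iUnion]
  refine iSup_le fun n => ?_
  have hn : (0 : ℝ) ≤ n := Nat.cast_nonneg n
  have h1 : 0 < η / ((n : ℝ) + 2) := by positivity
  have h2 : η / ((n : ℝ) + 2) < η := div_lt_self hη0 (by linarith)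
  refine (dim_one hk hc hη h1 h2).trans (ENNReal.ofReal_le_ofReal ?_)
  have h3 : (3 - 8 * η) / (k : ℝ) ≤ (3 - 8 * η + 5 * (η / ((n : ℝ) + 2))) / k :=
    div_le_div_of_nonneg_right (by linarith) hk0.le
  linarith

end Pool.Agent.R461.MD
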