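import Pool.Agent.R461.MD.Count
import Pool.Agent.R461.MF.Main
import Pool.Agent.Helper112.LS

/-! # Large values of the fourth power at separated points -/

set_option autoImplicit false

open Finset

namespace Pool.Agent.R461.MD

open Pool.Agent.R461.MF (dl pc Qc pc_sq coef_le mem_prs sc sup_max)
open Pool.Agent.W928.MW (e prs e_add e_norm)
open Pool.Agent.Helper112 (ee lsSep ls_general)

theorem ee_eq (x : ℝ) : ee x = e x := by
  unfold Pool.Agent.Helper112.ee Pool.Agent.W928.MW.e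
  congr 1
  ring

/-- the coefficients -/
noncomputable def cf (c : ℕ → ℂ) (u : (ℕ × ℕ) × (ℕ × ℕ)) : ℂ :=
  c u.1.1 * c u.1.2 * (starRingEnd ℂ) (c u.2.1 * c u.2.2)

theorem Qc_eq (k N : ℕ) (c : ℕ → ℂ) (t : ℝ) :
    ((Qc k N c t : ℝ) : ℂ) = ∑ u ∈ US N, cf c u * e ((dl k u.1 u.2 : ℝ) * t) := by
  classical
  unfold Qc
  rw [Complex.ofReal_sum]
  simp only [pc_sq]
  have hmaps : ∀ u ∈ US N, u.1.1 + u.1.2 ∈ range (2 * N + 1) := by
    intro u hu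
    rw [mem_US] at hu
    rw [Finset.mem_range]
    omega
  rw [← Finset.sum_fiberwise_of_maps_to hmaps]
  refine Finset.sum_congr rfl fun m _ => ?_
  rw [← Finset.sum_product' (prs N m) (prs N m) fun z w =>
    (c z.1 * c z.2 * (starRingEnd ℂ) (c w.1 * c w.2)) * e ((dl k z w : ℝ) * t)]
  refine Finset.sum_congr ?_ fun u _ => rfl
  ext u
  rw [Finset.mem_product, mem_prs, mem_prs, Finset.mem_filter, mem_US]
  constructor
  · rintro ⟨⟨h1, h2, h3⟩, h4, h5, h6⟩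
    exact ⟨⟨⟨⟨h1, h2⟩, h4, h5⟩, by omega⟩, h3⟩
  · rintro ⟨⟨⟨⟨h1, h2⟩, h4, h5⟩, h6⟩, h7⟩
    exact ⟨⟨h1, h2, h7⟩, h4, h5, by omega⟩

/-- the part without the frequency `0` -/
noncomputable def Pq (k N : ℕ) (c : ℕ → ℂ) (t : ℝ) : ℂ :=
  ∑ u ∈ (US N).filter (fun u => dl k u.1 u.2 ≠ 0), cf c u * e ((dl k u.1 u.2 : ℝ) * t)

theorem Qc_le {k N : ℕ} (hk : 2 ≤ k) {c : ℕ → ℂ} (hc : ∀ n, ‖c n‖ ≤ 1) (t : ℝ) :
    Qc k N c t ≤ ‖Pq k N c t‖ + 2 * (N : ℝ) ^ 2 := by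
  classical
  have h1 : Qc k N c t = ‖((Qc k N c t : ℝ) : ℂ)‖ := by
    rw [Complex.norm_real, Real.norm_eq_abs, abs_of_nonneg (Pool.Agent.R461.MF.Qc_nonneg k N c t)]
  rw [h1, Qc_eq, ← Finset.sum_filter_add_sum_filter_not (US N) fun u => dl k u.1 u.2 ≠ 0]
  refine (norm_add_le _ _).trans (add_le_add le_rfl ?_)
  refine (norm_sum_le _ _).trans ?_
  calc _ ≤ ∑ u ∈ (US N).filter (fun u => ¬ dl k u.1 u.2 ≠ 0), (1 : ℝ) := by
        refine Finset.sum_le_sum fun u _ => ?_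
        rw [norm_mul, e_norm, mul_one]
        exact coef_le hc u.1 u.2
    _ = (((US N).filter (fun u => ¬ dl k u.1 u.2 ≠ 0)).card : ℝ) := by
        rw [Finset.sum_const, nsmul_eq_mul, mul_one]
    _ ≤ _ := by
        have h2 : ((US N).filter (fun u => ¬ dl k u.1 u.2 ≠ 0)) =
            ((US N).filter fun u => dl k u.1 u.2 = 0) := by
          refine Finset.filter_congr fun u _ => ?_
          exact not_not
        rw [h2]
        have h3 := rep_zero hk N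
        exact_mod_cast h3

/-- the size of the frequencies -/
theorem dl_abs (k : ℕ) {N : ℕ} {u : (ℕ × ℕ) × (ℕ × ℕ)} (hu : u ∈ US N) :
    |dl k u.1 u.2| ≤ 2 * (N : ℤ) ^ k := by
  rw [mem_US] at hu
  have key : ∀ x : ℕ, x ≤ N → (0 : ℤ) ≤ (x : ℤ) ^ k ∧ (x : ℤ) ^ k ≤ (N : ℤ) ^ k := fun x hx =>
    ⟨by positivity, pow_le_pow_left₀ (by positivity) (by exact_mod_cast hx) k⟩
  have h1 := key _ hu.1.1.1.2
  have h2 := key _ hu.1.1.2.2
  have h3 := key _ hu.1.2.1.2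
  have h4 := key _ hu.1.2.2.2
  unfold dl
  rw [abs_le]
  constructor <;> linarith [h1.1, h1.2, h2.1, h2.2, h3.1, h3.2, h4.1, h4.2]

/-- the shifted frequency -/
def fr (k N : ℕ) (u : (ℕ × ℕ) × (ℕ × ℕ)) : ℕ := (dl k u.1 u.2 + 2 * (N : ℤ) ^ k + 1).toNat

theorem fr_cast (k : ℕ) {N : ℕ} {u : (ℕ × ℕ) × (ℕ × ℕ)} (hu : u ∈ US N) :
    ((fr k N u : ℕ) : ℤ) = dl k u.1 u.2 + 2 * (N : ℤ) ^ k + 1 := by
  have h1 := (abs_le.1 (dl_abs k hu)).1
  unfold fr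
  exact Int.toNat_of_nonneg (by linarith)

theorem fr_mem (k : ℕ) {N : ℕ} {u : (ℕ × ℕ) × (ℕ × ℕ)} (hu : u ∈ US N) :
    fr k N u ∈ Icc 1 (4 * N ^ k + 1) := by
  have h1 := abs_le.1 (dl_abs k hu)
  have h2 := fr_cast k hu
  have h3 : (1 : ℤ) ≤ ((fr k N u : ℕ) : ℤ) := by
    rw [h2]
    linarith [h1.1]
  have h4 : ((fr k N u : ℕ) : ℤ) ≤ ((4 * N ^ k + 1 : ℕ) : ℤ) := by
    rw [h2]
    push_cast
    linarith [h1.2]
  rw [Finset.mem_Icc]
  constructor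
  · exact_mod_cast h3
  · exact_mod_cast h4

/-- **Large sieve for the fourth power.** -/
theorem sieve {k N : ℕ} {c : ℕ → ℂ} (hc : ∀ n, ‖c n‖ ≤ 1) {B : ℝ}
    (hB : ∀ D : ℤ, D ≠ 0 → |D| ≤ 2 * (N : ℤ) ^ k →
      (((US N).filter fun u => dl k u.1 u.2 = D).card : ℝ) ≤ B) (hB0 : 0 ≤ B)
    (T : Finset ℝ) {K : ℕ} (hK : 1 ≤ K)
    (hsep : ∀ r ∈ T, ∀ s ∈ T, r ≠ s → lsSep K (s - r)) :
    ∑ t ∈ T, ‖Pq k N c t‖ ^ 2 ≤ 6 * ((4 * (N : ℝ) ^ k + 1) + K) * (B * (N : ℝ) ^ 3) := by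
  classical
  set U' : Finset ((ℕ × ℕ) × (ℕ × ℕ)) := (US N).filter (fun u => dl k u.1 u.2 ≠ 0) with hU'
  set α : ℕ → ℂ := fun n => ∑ u ∈ U'.filter (fun u => fr k N u = n), cf c u with hα
  have hsub : U' ⊆ US N := Finset.filter_subset _ _
  have hmaps : ∀ u ∈ U', fr k N u ∈ Icc 1 (4 * N ^ k + 1) := fun u hu => fr_mem k (hsub hu)
  -- the polynomial
  have h1 : ∀ t : ℝ, ‖Pq k N c t‖ = ‖∑ n ∈ Icc 1 (4 * N ^ k + 1), α n * ee (n * t)‖ := by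
    intro t
    have h2 : ∑ n ∈ Icc 1 (4 * N ^ k + 1), α n * ee (n * t) =
        e ((2 * (N : ℝ) ^ k + 1) * t) * Pq k N c t := by
      have h3 : ∀ n ∈ Icc 1 (4 * N ^ k + 1), α n * ee (n * t) =
          ∑ u ∈ U'.filter (fun u => fr k N u = n),
            e ((2 * (N : ℝ) ^ k + 1) * t) * (cf c u * e ((dl k u.1 u.2 : ℝ) * t)) := by
        intro n _
        rw [hα]
        simp only
        rw [Finset.sum_mul]
        refine Finset.sum_congr rfl fun u hu => ?_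
        rw [Finset.mem_filter] at hu
        have h4 := fr_cast k (hsub hu.1)
        have h5 : ((n : ℕ) : ℝ) = (dl k u.1 u.2 : ℝ) + 2 * (N : ℝ) ^ k + 1 := by
          rw [← hu.2]
          have h6 : ((fr k N u : ℤ) : ℝ) = ((dl k u.1 u.2 + 2 * (N : ℤ) ^ k + 1 : ℤ) : ℝ) := by
            exact_mod_cast h4
          push_cast at h6
          exact_mod_cast h6
        rw [ee_eq, h5, mul_left_comm, ← e_add]
        congr 2
        ring
      rw [Finset.sum_congr rfl h3, Finset.sum_fiberwise_of_maps_to hmaps, ← Finset.mul_sum]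
      rfl
    rw [h2, norm_mul, e_norm, one_mul]
  have h2 := ls_general T (fun t => t) K (4 * N ^ k + 1) hK hsep α
  have h3 : ∑ t ∈ T, ‖Pq k N c t‖ ^ 2 =
      ∑ r ∈ T, ‖∑ n ∈ Icc 1 (4 * N ^ k + 1), α n * ee (n * (fun t => t) r)‖ ^ 2 :=
    Finset.sum_congr rfl fun t _ => by rw [h1]
  rw [h3]
  refine h2.trans ?_
  have h4 : (((4 * N ^ k + 1 : ℕ) : ℝ) + K) = ((4 * (N : ℝ) ^ k + 1) + K) := by
    push_cast
    ring
  rw [h4]
  refine mul_le_mul_of_nonneg_left ?_ (by positivity)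
  -- the coefficients
  have h5 : ∀ n, ‖α n‖ ≤ ((U'.filter (fun u => fr k N u = n)).card : ℝ) := by
    intro n
    rw [hα]
    refine (norm_sum_le _ _).trans ?_
    calc _ ≤ ∑ u ∈ U'.filter (fun u => fr k N u = n), (1 : ℝ) :=
          Finset.sum_le_sum fun u _ => coef_le hc u.1 u.2
      _ = _ := by rw [Finset.sum_const, nsmul_eq_mul, mul_one]
  have h6 : ∀ n, ((U'.filter (fun u => fr k N u = n)).card : ℝ) ≤ B := by
    intro n
    by_cases hne : (U'.filter (fun u => fr k N u = n)).Nonempty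
    · obtain ⟨u₀, hu₀⟩ := hne
      rw [Finset.mem_filter] at hu₀
      have h7 : U'.filter (fun u => fr k N u = n) ⊆
          (US N).filter fun u => dl k u.1 u.2 = dl k u₀.1 u₀.2 := by
        intro u hu
        rw [Finset.mem_filter] at hu ⊢
        refine ⟨hsub hu.1, ?_⟩
        have h8 := fr_cast k (hsub hu.1)
        have h9 := fr_cast k (hsub hu₀.1)
        rw [hu.2] at h8
        rw [hu₀.2] at h9
        linarith
      have h8 : ((U'.filter (fun u => fr k N u = n)).card : ℝ) ≤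
          (((US N).filter fun u => dl k u.1 u.2 = dl k u₀.1 u₀.2).card : ℝ) := by
        exact_mod_cast Finset.card_le_card h7
      refine h8.trans (hB _ ?_ (dl_abs k (hsub hu₀.1)))
      exact (Finset.mem_filter.1 hu₀.1).2
    · rw [Finset.not_nonempty_iff_eq_empty] at hne
      rw [hne, Finset.card_empty, Nat.cast_zero]
      exact hB0
  have h7 : ∑ n ∈ Icc 1 (4 * N ^ k + 1), ((U'.filter (fun u => fr k N u = n)).card : ℝ) ≤
      (N : ℝ) ^ 3 := by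
    have h8 := Finset.card_eq_sum_card_fiberwise hmaps
    have h9 : (U'.card : ℝ) =
        ∑ n ∈ Icc 1 (4 * N ^ k + 1), ((U'.filter (fun u => fr k N u = n)).card : ℝ) := by
      rw [h8]
      push_cast
      rfl
    rw [← h9]
    have h10 : U'.card ≤ N ^ 3 := (Finset.card_le_card hsub).trans (US_card N)
    exact_mod_cast h10
  calc ∑ n ∈ Icc 1 (4 * N ^ k + 1), ‖α n‖ ^ 2
      ≤ ∑ n ∈ Icc 1 (4 * N ^ k + 1), B * ((U'.filter (fun u => fr k N u = n)).card : ℝ) := by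
        refine Finset.sum_le_sum fun n _ => ?_
        rw [sq]
        exact mul_le_mul ((h5 n).trans (h6 n)) (h5 n) (norm_nonneg _) hB0
    _ = B * ∑ n ∈ Icc 1 (4 * N ^ k + 1), ((U'.filter (fun u => fr k N u = n)).card : ℝ) := by
        rw [Finset.mul_sum]
    _ ≤ _ := mul_le_mul_of_nonneg_left h7 hB0

/-- **Large values at separated points.** -/
theorem large {k N : ℕ} (hk : 2 ≤ k) (hN : 1 ≤ N) {c : ℕ → ℂ} (hc : ∀ n, ‖c n‖ ≤ 1) {B : ℝ}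
    (hB : ∀ D : ℤ, D ≠ 0 → |D| ≤ 2 * (N : ℤ) ^ k →
      (((US N).filter fun u => dl k u.1 u.2 = D).card : ℝ) ≤ B) (hB0 : 0 ≤ B)
    (T : Finset ℝ) {K : ℕ} (hK : 1 ≤ K)
    (hsep : ∀ r ∈ T, ∀ s ∈ T, r ≠ s → lsSep K (s - r)) {V : ℝ} (hV : 0 < V)
    (hT : ∀ t ∈ T, ∃ (M : ℕ) (ξ : ℝ), M ≤ N ∧ V ≤ ‖sc k M c t ξ‖)
    (hbig : 12 * (2 + Real.log N) ^ 4 * (N : ℝ) ^ 3 ≤ V ^ 4) :
    (T.card : ℝ) * V ^ 8 ≤
      216 * (2 + Real.log N) ^ 8 * (N : ℝ) ^ 5 * ((4 * (N : ℝ) ^ k + 1) + K) * B := by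
  have hN1 : (1 : ℝ) ≤ N := by exact_mod_cast hN
  have hN0 : (0 : ℝ) < N := by linarith
  set L : ℝ := 2 + Real.log N with hL
  have hL2 : 2 ≤ L := by
    have := Real.log_natCast_nonneg N
    rw [hL]
    linarith
  have hL0 : 0 < L := by linarith
  have key : ∀ t ∈ T, V ^ 8 ≤ 36 * L ^ 8 * (N : ℝ) ^ 2 * ‖Pq k N c t‖ ^ 2 := by
    intro t ht
    obtain ⟨M, ξ, hM, hV2⟩ := hT t ht
    have h1 := sup_max (k := k) hN hM c t ξ
    have h2 : V ^ 4 ≤ L ^ 4 * ((2 * (N : ℝ) + 1) * Qc k N c t) :=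
      (pow_le_pow_left₀ hV.le hV2 4).trans h1
    have h3 : (2 * (N : ℝ) + 1) * Qc k N c t ≤ 3 * N * Qc k N c t :=
      mul_le_mul_of_nonneg_right (by linarith) (Pool.Agent.R461.MF.Qc_nonneg k N c t)
    have h4 := Qc_le hk hc (N := N) t
    have h5 : V ^ 4 ≤ L ^ 4 * (3 * N * (‖Pq k N c t‖ + 2 * (N : ℝ) ^ 2)) := by
      refine h2.trans (mul_le_mul_of_nonneg_left (h3.trans ?_) (by positivity))
      exact mul_le_mul_of_nonneg_left h4 (by positivity)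
    have h6 : V ^ 4 ≤ 6 * L ^ 4 * N * ‖Pq k N c t‖ := by
      have h7 : L ^ 4 * (3 * N * (‖Pq k N c t‖ + 2 * (N : ℝ) ^ 2)) =
          3 * L ^ 4 * N * ‖Pq k N c t‖ + 6 * L ^ 4 * (N : ℝ) ^ 3 := by ring
      rw [h7] at h5
      linarith
    have h8 : V ^ 8 = V ^ 4 * V ^ 4 := by ring
    rw [h8]
    calc V ^ 4 * V ^ 4 ≤ (6 * L ^ 4 * N * ‖Pq k N c t‖) * (6 * L ^ 4 * N * ‖Pq k N c t‖) :=
          mul_le_mul h6 h6 (by positivity) (by positivity)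
      _ = _ := by ring
  have h1 := sieve hc hB hB0 T hK hsep
  calc (T.card : ℝ) * V ^ 8 = ∑ t ∈ T, V ^ 8 := by rw [Finset.sum_const, nsmul_eq_mul]
    _ ≤ ∑ t ∈ T, 36 * L ^ 8 * (N : ℝ) ^ 2 * ‖Pq k N c t‖ ^ 2 := Finset.sum_le_sum key
    _ = 36 * L ^ 8 * (N : ℝ) ^ 2 * ∑ t ∈ T, ‖Pq k N c t‖ ^ 2 := by rw [Finset.mul_sum]
    _ ≤ 36 * L ^ 8 * (N : ℝ) ^ 2 * (6 * ((4 * (N : ℝ) ^ k + 1) + K) * (B * (N : ℝ) ^ 3)) :=
        mul_le_mul_of_nonneg_left h1 (by positivity)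
    _ = _ := by ring

end Pool.Agent.R461.MD
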